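import Pool.Agent.Lib.MP_b8808f_nt.Main

/-!
# MP_b8808f_nt: a positive proportion of the integers has no admissible prime near either end

For at least `c N` of the integers `n ≤ N`, every prime `p < n` admissible in Q1 or in Q2 lies
between `c log N` and `n - c log N`.
-/

set_option autoImplicit false

namespace Pool.Agent.Results.MP_b8808f_nt.LeastPrime

theorem result : ∃ c : ℝ, 0 < c ∧ ∃ N₀ : ℕ, ∀ N : ℕ, N₀ ≤ N →
    c * N ≤ ({n : ℕ | 1 ≤ n ∧ n ≤ N ∧
      (∀ q : ℕ, q < n → (3 * Nat.primeCounting (n - q) - 1).Prime → c * Real.log N < q) ∧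
      (∀ p : ℕ, p.Prime → p < n → c * Real.log N < (n : ℝ) - p)}.ncard : ℝ) :=
  MPb8808f.main

end Pool.Agent.Results.MP_b8808f_nt.LeastPrime
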