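import Pool.Agent.Lib.MP_b8808f_ntH70.Needed

/-!
# MP_b8808f_nt: Q1 and Q2 need infinitely many prime triples

All clauses hold for every property `G` of the index `m`; Q1 is `G = Good1`, Q2 is `G = Good2`.
-/

set_option autoImplicit false

namespace Pool.Agent.Results.MP_b8808f_nt.TriplesNeeded

open MPb8808fH70

/-- The condition on `m` in Q1. -/
def Good1 (m : ℕ) : Prop := (3 * m - 1).Prime ∧ (3 * m + 1).Prime ∧ (3 * m + 5).Prime

/-- The condition on `m` in Q2. -/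
def Good2 (m : ℕ) : Prop := (3 * m - 1).Prime ∧ (3 * m + 1).Prime ∧ (3 * m - 5).Prime

theorem result (G : ℕ → Prop) (_hG : G = Good1 ∨ G = Good2) :
    (∀ N : ℕ, count G N ≤ Nat.primeCounting N * cover G N) ∧
    ({m : ℕ | G m}.Finite →
      ∃ C : ℝ, ∃ N₀ : ℕ, ∀ N : ℕ, N₀ ≤ N → (count G N : ℝ) ≤ C * (N / Real.log N)) ∧
    (∀ δ : ℝ, 0 < δ → (∀ N₀ : ℕ, ∃ N : ℕ, N₀ ≤ N ∧ δ * N ≤ count G N) →
      {m : ℕ | G m}.Infinite) ∧
    (∀ n₀ : ℕ, (∀ n : ℕ, n₀ < n → Works G n) →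
      ∃ N₀ : ℕ, ∀ N : ℕ, N₀ ≤ N → Real.log N / 4 ≤ cover G N) :=
  ⟨count_le G, finite_case, fun _ hδ h => infinite_of_proportion hδ h, fun _ h => cover_of_all h⟩

end Pool.Agent.Results.MP_b8808f_nt.TriplesNeeded
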